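import Mathlib

namespace Pool.Agent.Results.MP_9704e3_al.Width

/-- the horizontal class transpositions -/
def H : Set (Equiv.Perm ℤ) :=
  {τ | ∃ k i j : ℤ, 2 ≤ k ∧ 0 ≤ i ∧ i < j ∧ j ≤ k - 1 ∧ ∀ n : ℤ,
    τ n = if n ≡ i [ZMOD k] then n + (j - i) else if n ≡ j [ZMOD k] then n - (j - i) else n}

lemma disp (l : List (Equiv.Perm ℤ)) (hl : ∀ τ ∈ l, τ ∈ H) :
    ∃ D : Finset ℤ, D.card ≤ 3 ^ l.length ∧ ∀ n, l.prod n - n ∈ D := by
  induction l with
  | nil => exact ⟨{0}, by simp, by simp⟩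
  | cons τ l ih =>
    obtain ⟨D, hD, h⟩ := ih fun σ hσ => hl σ (List.mem_cons_of_mem _ hσ)
    obtain ⟨k, i, j, -, -, -, -, e⟩ := hl τ List.mem_cons_self
    refine ⟨Finset.image₂ (· + ·) D {j - i, -(j - i), 0}, ?_, fun n => ?_⟩
    · refine (Finset.card_image₂_le _ _ _).trans ?_
      rw [List.length_cons, pow_succ]
      exact Nat.mul_le_mul hD Finset.card_le_three
    · refine Finset.mem_image₂.2 ⟨_, h n, τ (l.prod n) - l.prod n, ?_, by simp⟩
      rw [e]
      split_ifs <;> simp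

/-- the transposition of the classes `i` and `j` modulo `k` -/
def tr (k i j : ℤ) (n : ℤ) : ℤ :=
  if n ≡ i [ZMOD k] then n + (j - i) else if n ≡ j [ZMOD k] then n - (j - i) else n

lemma tr_inv (k i j : ℤ) (h : ¬ j ≡ i [ZMOD k]) : Function.Involutive (tr k i j) := by
  intro n
  by_cases h1 : n ≡ i [ZMOD k]
  · have h2 : n + (j - i) ≡ j [ZMOD k] := by simpa using h1.add_right (j - i)
    have h3 : ¬ n + (j - i) ≡ i [ZMOD k] := fun h3 => h (h2.symm.trans h3)
    simp [tr, h1, h2, h3]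
  · by_cases h2 : n ≡ j [ZMOD k]
    · have h3 : n - (j - i) ≡ i [ZMOD k] := by simpa using h2.sub_right (j - i)
      simp [tr, h1, h2, h3]
    · simp [tr, h1, h2]

lemma ne_mod {k i j : ℤ} (h0 : 0 ≤ i) (h1 : i < k) (h2 : 0 ≤ j) (h3 : j < k) (h : i ≠ j) :
    ¬ i ≡ j [ZMOD k] := by
  rwa [Int.ModEq, Int.emod_eq_of_lt h0 h1, Int.emod_eq_of_lt h2 h3]

lemma rev (N : ℕ) (m : ℕ) (hm : m ≤ N) : ∃ g ∈ Subgroup.closure H,
    (∀ i : ℤ, 0 ≤ i → i < m → g i = 2 * N - i) ∧ ∀ i : ℤ, m ≤ i → i ≤ 2 * N - m → g i = i := by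
  induction m with
  | zero => exact ⟨1, one_mem _, fun i h1 h2 => by omega, fun _ _ _ => rfl⟩
  | succ m ih =>
    obtain ⟨g, hg, h1, h2⟩ := ih (by omega)
    let τ := (tr_inv (2 * N + 1) m (2 * N - m)
      (ne_mod (by omega) (by omega) (by omega) (by omega) (by omega))).toPerm
    have hτ : ∀ n, τ n = tr (2 * N + 1) m (2 * N - m) n := fun _ => rfl
    have hfix : ∀ n : ℤ, 0 ≤ n → n ≤ 2 * N → n ≠ m → n ≠ 2 * N - m → τ n = n := by
      intro n a b c d
      rw [hτ, tr, if_neg (ne_mod a (by omega) (by omega) (by omega) c),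
        if_neg (ne_mod a (by omega) (by omega) (by omega) d)]
    refine ⟨τ * g, mul_mem (Subgroup.subset_closure ⟨2 * N + 1, m, 2 * N - m, by omega, by omega,
      by omega, by omega, hτ⟩) hg, fun i a b => ?_, fun i a b => ?_⟩
    · by_cases e : i = m
      · rw [Equiv.Perm.mul_apply, h2 i (by omega) (by omega), hτ, tr, e, if_pos (Int.ModEq.refl _)]
        ring
      · rw [Equiv.Perm.mul_apply, h1 i a (by omega), hfix] <;> omega
    · rw [Equiv.Perm.mul_apply, h2 i (by omega) (by omega), hfix] <;> omega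

theorem result (n : ℕ) : ∃ g ∈ Subgroup.closure H,
    ¬ ∃ l : List (Equiv.Perm ℤ), (∀ τ ∈ l, τ ∈ H) ∧ l.length ≤ n ∧ l.prod = g := by
  obtain ⟨g, hg, h, -⟩ := rev (3 ^ n + 1) _ le_rfl
  refine ⟨g, hg, ?_⟩
  rintro ⟨l, hl, hn, rfl⟩
  obtain ⟨D, hD, hm⟩ := disp l hl
  have h1 : (Finset.range (3 ^ n + 1)).card ≤ D.card := by
    refine Finset.card_le_card_of_injOn (fun i : ℕ => l.prod i - i) (fun i _ => hm i) ?_
    intro i hi j hj e
    simp only [Finset.coe_range, Set.mem_Iio] at hi hj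
    simp only at e
    rw [h i (by omega) (by exact_mod_cast hi), h j (by omega) (by exact_mod_cast hj)] at e
    omega
  have := Nat.pow_le_pow_right (show 0 < 3 by norm_num) hn
  rw [Finset.card_range] at h1
  omega

end Pool.Agent.Results.MP_9704e3_al.Width
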